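import Pool.Agent.helper27.RA.SpecC
import Pool.Agent.helper18.RA.TRN

/-!
# ra:TRT (MP_70a088_an, rational class): no disc returns: no infinitesimal 1-jet returns in windows, two phase form (helper91, after Pool/Agent/helper18/RA/TRN.lean)
-/

set_option autoImplicit false

open Complex Metric Set Filter Topology MeasureTheory
open HY (UD T S hd UN RM)
open RT
open PL (cm BS DQ)
open RB (VL LO FLS FL CLS FR TL TLL INN WIN DRT TWJ TWD)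

noncomputable section

namespace RA

/-- a return at a higher target level is a return at a lower target level. -/
theorem TRT_nrt (hTIN : RT.TIN_stmt) (hVIT : RS.VIT_stmt) (hVPB : RS.VPB_stmt) (hVCF : RS.VCF_stmt) (Y : Dyn) (s : ℝ) (hS : Sys Y s)
    (n n' : ℕ) (hn : n ≤ n') (p : ℂ) (hp : p ∈ Y.J) (u v : ℕ) (e : ℝ) (h : NRT Y n' p u v e) : NRT Y n p u v e := by
  have hpu : it Y u p ∈ Y.J := ((hVIT Y s 0 0 hS.ok).2.2.2.2.2 p hp u).2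
  have hPB := (hVPB Y s 0 0 hS.ok Y.U hS.lv).2.2.2.2.2
  obtain ⟨tH, mH, -, -, -, sH, -⟩ := hVCF Y s 0 0 hS.ok Y.U hS.lv n' (it Y u p) (hPB n' hpu)
  obtain ⟨tm, -, -, -, -, -, -⟩ := hVCF Y s 0 0 hS.ok Y.U hS.lv n (it Y u p) (hPB n hpu)
  exact ⟨((hTIN s _ _ hS.ok.s0 tH tm (sH n hn) (it Y u p) mH).2 (it Y v p)).1.trans h.1, h.2⟩

/-- **TRT** -/
theorem TRT (hDIA : P2A.DIA_stmt) (hTKO : RT.TKO_stmt) (hTIN : RT.TIN_stmt) (hVIT : RS.VIT_stmt) (hVPB : RS.VPB_stmt) (hVCF : RS.VCF_stmt)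
    (hNRA : NRA_stmt) (hDRA : DRA_stmt) : TRT_stmt := by
  intro Y s hS μ hIB P hCLS x hx U k H χ hk hFR w hw a ha hWIN ρ hρ hTWD L lam hL hlam
  obtain ⟨C, hC1, hC2⟩ := TRN_win hTKO hTIN hVPB hVCF Y s hS
  have hCCL : 1 ≤ C * C * L := by
    have h1 : 1 ≤ C * C := one_le_mul_of_one_le_of_one_le hC1 hC1
    exact one_le_mul_of_one_le_of_one_le h1 hL
  obtain ⟨e₀, he₀, hND0⟩ := hTWD (C * C * L) lam hCCL hlam
  -- the choice of the times `T j`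
  obtain ⟨Tj, hND⟩ : ∃ Tj : ℕ → ℕ, ∀ᶠ j in (U : Filter ℕ), Tj j ≤ w j ∧ LO Y (it Y (Tj j) (x j)) (1 - lam) (H j - w j) (w j - Tj j) ∧
      ∀ u v, u < v → v < Tj j → cr (VL Y (H j - w j + u) (x j)) (x j) ≤ C * C * L * cr (VL Y (H j) (x j)) (x j) →
      ¬ DRT Y (H j - w j + (v - u)) (it Y u (x j)) (v - u) ρ e₀ := by
    have hch : ∀ j, ∃ T : ℕ, (∃ T ≤ w j, LO Y (it Y T (x j)) (1 - lam) (H j - w j) (w j - T) ∧
      ∀ u v, u < v → v < T → cr (VL Y (H j - w j + u) (x j)) (x j) ≤ C * C * L * cr (VL Y (H j) (x j)) (x j) →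
      ¬ DRT Y (H j - w j + (v - u)) (it Y u (x j)) (v - u) ρ e₀) → (T ≤ w j ∧ LO Y (it Y T (x j)) (1 - lam) (H j - w j) (w j - T) ∧
      ∀ u v, u < v → v < T → cr (VL Y (H j - w j + u) (x j)) (x j) ≤ C * C * L * cr (VL Y (H j) (x j)) (x j) →
      ¬ DRT Y (H j - w j + (v - u)) (it Y u (x j)) (v - u) ρ e₀) := by
      intro j
      by_cases h : ∃ T ≤ w j, LO Y (it Y T (x j)) (1 - lam) (H j - w j) (w j - T) ∧
        ∀ u v, u < v → v < T → cr (VL Y (H j - w j + u) (x j)) (x j) ≤ C * C * L * cr (VL Y (H j) (x j)) (x j) →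
        ¬ DRT Y (H j - w j + (v - u)) (it Y u (x j)) (v - u) ρ e₀
      · obtain ⟨T, hT⟩ := h
        exact ⟨T, fun _ => hT⟩
      · exact ⟨0, fun h1 => absurd h1 h⟩
    choose Tj hTj using hch
    exact ⟨Tj, by filter_upwards [hND0] with j hj using hTj j hj⟩
  by_contra hcon
  push Not at hcon
  -- the bad statement of quality `e`
  obtain ⟨Z, hZ⟩ : ∃ Z : ℝ → ℕ → ℂ → ℕ → ℕ → Prop, Z = fun e j p u v => p ∈ Y.J ∧ p ∈ VL Y (H j) (x j) ∧ pd (VL Y (H j) (x j)) (x j) p ≤ 3 / 4 ∧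
    a / 2 ≤ hdf (it Y (w j)) (VL Y (H j) (x j)) (VL Y (H j - w j) (it Y (w j) (x j))) p ∧ u < v ∧ v < Tj j ∧
    cr (VL Y (H j - w j + u) p) p ≤ L * cr (VL Y (H j) p) p ∧ NRT Y (H j - Tj j) p u v e := ⟨_, rfl⟩
  have hbad : ∀ e : ℝ, 0 < e → ∀ᶠ j in (U : Filter ℕ), ∃ (p : ℂ) (u v : ℕ), Z e j p u v := by
    intro e he
    have h1 := hcon e he
    filter_upwards [h1, hND] with j hj hj2
    obtain ⟨p, h3, h4, h5, h6, u, v, h7, h8, h9, h10⟩ := hj (Tj j) hj2.1 hj2.2.1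
    refine ⟨p, u, v, ?_⟩
    rw [hZ]
    exact ⟨h3, h4, h5, h6, h7, h8, h9, h10⟩
  obtain ⟨t, ht1, ht2⟩ := hDIA U hFR.le (fun i j => ∃ (p : ℂ) (u v : ℕ), Z (1 / ((i : ℝ) + 1)) j p u v)
    (fun i => hbad _ (by positivity))
  have hch : ∀ j, ∃ (p : ℂ) (u v : ℕ), (∃ (p : ℂ) (u v : ℕ), Z (1 / ((t j : ℝ) + 1)) j p u v) → Z (1 / ((t j : ℝ) + 1)) j p u v := by
    intro j
    by_cases h : ∃ (p : ℂ) (u v : ℕ), Z (1 / ((t j : ℝ) + 1)) j p u v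
    · obtain ⟨p, u, v, h1⟩ := h
      exact ⟨p, u, v, fun _ => h1⟩
    · exact ⟨0, 0, 0, fun h1 => absurd h1 h⟩
  choose p u v hpuv using hch
  have hZe : ∀ᶠ j in (U : Filter ℕ), Z (1 / ((t j : ℝ) + 1)) j (p j) (u j) (v j) := by
    filter_upwards [ht2] with j hj
    exact hpuv j hj
  have he : Tendsto (fun j => 1 / ((t j : ℝ) + 1)) U (𝓝 0) :=
    tendsto_one_div_add_atTop_nhds_zero_nat.comp ht1
  obtain ⟨hm, Aj, Bj, A, hA, hA1, hA2, hA3⟩ := hNRA Y s hS μ hIB P hCLS x hx U k H χ hk hFR w hw a ha hWIN L hL p u v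
    (fun j => 1 / ((t j : ℝ) + 1)) he (by
      filter_upwards [hZe, hND] with j hj hj2
      rw [hZ] at hj
      obtain ⟨g1, g2, g3, g4, g5, g6, g7, g8⟩ := hj
      exact ⟨g1, g2, g3, g4, g5, g6.le.trans hj2.1, g7, TRT_nrt hTIN hVIT hVPB hVCF Y s hS (H j - w j) (H j - Tj j) (Nat.sub_le_sub_left hj2.1 _) _ g1 _ _ _ g8⟩)
  have hfin := hDRA Y s hS x hx U H (fun j => H j - w j) u v (by
      filter_upwards [hZe, hw, hND] with j hj hj2 hj3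
      rw [hZ] at hj
      obtain ⟨-, -, -, -, h1, h2, -⟩ := hj
      refine ⟨h1, ?_⟩
      have := hj2.1
      have := hj3.1
      omega) hm Aj Bj A hA hA1 hA2 hA3 ρ e₀ hρ he₀
  have hfalse : ∀ᶠ j in (U : Filter ℕ), False := by
    filter_upwards [hfin, hND, hZe, hw] with j h1 h2 h3 hwj
    rw [hZ] at h3
    obtain ⟨-, g2, g3, -, h4, h5, h6, -⟩ := h3
    have hTw := h2.1
    have h7 := hC2 (x j) (hx j) (H j) (H j - w j + u j) (by have := hwj.1; omega) (p j) g2 g3 L (by linarith) h6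
    exact h2.2.2 (u j) (v j) h4 h5 h7 h1
  exact hfalse.exists.elim (fun _ h => h)

end RA

end
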